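import Mathlib
import Pool.Agent.Q43.Dom.Final

/-!
# Strongly irreducible subshifts of domino tilings in dimension at least three

For every `d ≥ 3` the space `X_d` of domino tilings of `ℝ ^ d` contains a nonempty strongly
irreducible subshift.
-/

namespace Pool.Agent.Results.MP_073e7c_an.DominoTilings

/-- The configurations: functions on `ℤ ^ d` with values in `ℤ ^ d` (a discrete space); the
topology is the product topology. -/
abbrev Config (d : ℕ) := (Fin d → ℤ) → (Fin d → ℤ)

/-- The space `X_d` of the domino tilings: all values are `± e_i`, and `x (v + x v) = - x v`. -/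
def dominoTilings (d : ℕ) : Set (Config d) :=
  {x | (∀ v, ∃ i : Fin d, x v = Pi.single i 1 ∨ x v = - Pi.single i 1) ∧
    ∀ v, x (v + x v) = - x v}

/-- The shift `(σ ^ u x) v = x (u + v)`. -/
def shift {d : ℕ} (u : Fin d → ℤ) (x : Config d) : Config d := fun v => x (u + v)

/-- A nonempty subshift: nonempty, closed in the product topology and invariant under all
shifts. -/
def IsSubshift {d : ℕ} (X : Set (Config d)) : Prop :=
  X.Nonempty ∧ IsClosed X ∧ ∀ u, ∀ x ∈ X, shift u x ∈ X

/-- Strong irreducibility: there is `k` such that for all `x` and `y` in `X` and all sets `A` and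
`B` at distance at least `k` (in the sup norm) some `z` in `X` agrees with `x` on `A` and with `y`
on `B`. -/
def StronglyIrreducible {d : ℕ} (X : Set (Config d)) : Prop :=
  ∃ k : ℕ, ∀ x ∈ X, ∀ y ∈ X, ∀ A B : Set (Fin d → ℤ), (∀ a ∈ A, ∀ b ∈ B, (k : ℝ) ≤ dist a b) →
    ∃ z ∈ X, (∀ v ∈ A, z v = x v) ∧ ∀ v ∈ B, z v = y v

/-- **The answer is yes.**  For every `d ≥ 3` the space of domino tilings of `ℝ ^ d` contains a
nonempty strongly irreducible subshift. -/
theorem result (d : ℕ) (hd : 3 ≤ d) :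
    ∃ X : Set (Config d), X ⊆ dominoTilings d ∧ IsSubshift X ∧ StronglyIrreducible X := by
  obtain ⟨n, rfl⟩ : ∃ n, d = n + 3 := ⟨d - 3, by omega⟩
  -- the vectors of the letters
  let vec : Fin (n + 3) × Bool → (Fin (n + 3) → ℤ) := fun a =>
    Pi.single a.1 (if a.2 then 1 else -1)
  have hopp : ∀ i b, vec (i, !b) = - vec (i, b) := by
    intro i b
    cases b
    · simp [vec, Pi.single_neg]
    · simp [vec, Pi.single_neg]
  let Θ : (Q43.Dom.V n → Q43.Dom.St) → Config (n + 3) := fun w v => vec (Q43.Dom.Psi w v)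
  have hcont : Continuous Θ := by
    apply continuous_pi
    intro v
    exact (continuous_of_discreteTopology (f := vec)).comp
      ((continuous_apply v).comp Q43.Dom.Psi_continuous)
  refine ⟨Θ '' Q43.Dom.Sys n, ?_, ⟨?_, ?_, ?_⟩, 3001, ?_⟩
  · rintro x ⟨w, hw, rfl⟩
    refine ⟨?_, ?_⟩
    · intro v
      refine ⟨(Q43.Dom.Psi w v).1, ?_⟩
      rcases h : (Q43.Dom.Psi w v).2 with _ | _
      · right; simp [Θ, vec, h, Pi.single_neg]
      · left; simp [Θ, vec, h]
    · intro v
      have := Q43.Dom.Psi_tiling w hw v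
      change vec (Q43.Dom.Psi w (v + Pi.single (Q43.Dom.Psi w v).1
        (if (Q43.Dom.Psi w v).2 then 1 else -1))) = - vec (Q43.Dom.Psi w v)
      rw [this, hopp]
  · obtain ⟨w, hw⟩ := Q43.Dom.Sys_nonempty (n := n)
    exact ⟨Θ w, w, hw, rfl⟩
  · exact (Q43.Dom.Sys_closed.isCompact.image hcont).isClosed
  · rintro u x ⟨w, hw, rfl⟩
    refine ⟨Q43.Dom.shw u w, Q43.Dom.Sys_shift u w hw, ?_⟩
    funext v
    change vec (Q43.Dom.emb (Q43.Dom.Phi (Q43.Dom.shw u w) v)) =
      vec (Q43.Dom.emb (Q43.Dom.Phi w (u + v)))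
    rw [Q43.Dom.Phi_shift]
  · rintro x ⟨w, hw, rfl⟩ y ⟨w', hw', rfl⟩ A B hAB
    obtain ⟨w'', h, hA, hB⟩ := Q43.Dom.Psi_glue w w' hw hw' A B (by
      intro a ha b hb
      exact_mod_cast hAB a ha b hb)
    refine ⟨Θ w'', ⟨w'', h, rfl⟩, ?_, ?_⟩
    · intro v hv
      change vec (Q43.Dom.Psi w'' v) = vec (Q43.Dom.Psi w v)
      rw [hA v hv]
    · intro v hv
      change vec (Q43.Dom.Psi w'' v) = vec (Q43.Dom.Psi w' v)
      rw [hB v hv]

end Pool.Agent.Results.MP_073e7c_an.DominoTilings
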